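import Mathlib.NumberTheory.LegendreSymbol.JacobiSymbol
import Mathlib.Tactic

/-!
# MP_1d631c_nt: `A(n)` does not exist for any positive integer `n` divisible by `4`

If `n` is a positive integer divisible by `4` then for no positive integer `A` the system
`n = x + y + z`, `x y z = 1 / A` has a solution in positive rational numbers.

More generally `(u + v + w) ^ 3 = N u v w` has no solution in positive integers if `64 ∣ N`. Proof: we
may assume `gcd (u, v, w) = 1`; then every prime dividing `u v w` divides `S = u + v + w`, and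
`8 ∣ S`. Take integers `X`, `Y` with `u X - v Y = 1`, and put `q = S (u X² + v Y²) - 1 > 0`. Then
`q (u + v) = S u v (X + Y)² + w`, so that `-(S u v w)` is a square modulo `q`; but `q ≡ 7 mod 8`
and `q ≡ -1` modulo all primes dividing `S u v w`, so that the Jacobi symbol of `-(S u v w)` modulo
`q` is `-1` by quadratic reciprocity.
-/

set_option autoImplicit false

namespace Pool.Agent.Results.MP_1d631c_nt.NoMultipleOfFour

open NumberTheorySymbols

/-- If `q ≡ -1` modulo all the prime factors of `b` then `J(q | b) = J(-1 | b)`. -/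
theorem jacobi_congr (q : ℤ) : ∀ b : ℕ, 0 < b → (∀ p : ℕ, p.Prime → p ∣ b → (p : ℤ) ∣ q + 1) →
    J(q | b) = J(-1 | b) := by
  intro b
  induction b using Nat.strong_induction_on with
  | _ b ih =>
    intro hb h
    by_cases h1 : b = 1
    · subst h1; simp
    obtain ⟨p, hp, hpb⟩ := Nat.exists_prime_and_dvd h1
    obtain ⟨c, rfl⟩ := hpb
    have hc : 0 < c := by
      rcases Nat.eq_zero_or_pos c with h0 | h0
      · subst h0; simp at hb
      · exact h0
    have hlt : c < p * c := by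
      have := hp.two_le
      nlinarith
    have ihc := ih c hlt hc (fun r hr hrc => h r hr (Dvd.dvd.mul_left hrc p))
    rw [jacobiSym.mul_right' _ hp.ne_zero hc.ne', jacobiSym.mul_right' _ hp.ne_zero hc.ne', ihc]
    congr 1
    apply jacobiSym.mod_left'
    have h2 := h p hp (dvd_mul_right p c)
    have h3 : (-1 : ℤ) ≡ q [ZMOD (p : ℤ)] := Int.modEq_iff_dvd.mpr (by simpa using h2)
    exact h3.symm

/-- The Jacobi symbol of `-M` modulo `q` is `-1` if `q ≡ 7 mod 8` and `q ≡ -1` modulo all the primes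
dividing `M`. -/
theorem jacobi_neg (M q : ℕ) (hM : 0 < M) (hq : q % 8 = 7)
    (h : ∀ p : ℕ, p.Prime → p ∣ M → p ∣ q + 1) : J(-(M : ℤ) | q) = -1 := by
  have hqo : Odd q := Nat.odd_iff.mpr (by omega)
  obtain ⟨e, m, hm, rfl⟩ := Nat.exists_eq_two_pow_mul_odd hM.ne'
  have hm0 : 0 < m := by
    rcases Nat.eq_zero_or_pos m with h0 | h0
    · subst h0; simp at hM
    · exact h0
  have h1 : J((m : ℤ) | q) = 1 := by
    rw [jacobiSym.quadratic_reciprocity hm hqo]
    have h2 : J((q : ℤ) | m) = J(-1 | m) := by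
      apply jacobi_congr q m hm0
      intro p hp hpm
      have := h p hp (Dvd.dvd.mul_left hpm _)
      exact_mod_cast this
    rw [h2, jacobiSym.at_neg_one hm, ZMod.χ₄_eq_neg_one_pow (Nat.odd_iff.mp hm)]
    have h3 : Odd (q / 2) := Nat.odd_iff.mpr (by omega)
    rw [pow_mul', ← mul_pow, h3.neg_one_pow]
    simp
  have h2 : J(2 | q) = 1 := by
    rw [jacobiSym.at_two hqo, ZMod.χ₈_nat_eq_if_mod_eight]
    simp [hq, Nat.odd_iff.mp hqo]
  rw [jacobiSym.neg _ hqo]
  push_cast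
  rw [jacobiSym.mul_left, jacobiSym.pow_left, h1, h2, ZMod.χ₄_nat_three_mod_four (by omega)]
  simp

/-- The main step: coprime solutions. -/
theorem coprime_case (u v w N : ℕ) (hu : 0 < u) (hv : 0 < v) (hw : 0 < w)
    (hg : ∀ p : ℕ, p.Prime → ¬ (p ∣ u ∧ p ∣ v ∧ p ∣ w)) (hN : 64 ∣ N)
    (h : (u + v + w) ^ 3 = N * (u * v * w)) : False := by
  set S := u + v + w with hS
  have hS0 : 0 < S := by omega
  -- primes dividing one of the numbers divide S
  have hdu : ∀ p : ℕ, p.Prime → p ∣ u → p ∣ S := fun p hp hpu =>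
    hp.dvd_of_dvd_pow (n := 3) (h ▸ Dvd.dvd.mul_left ((hpu.mul_right v).mul_right w) N)
  have hdv : ∀ p : ℕ, p.Prime → p ∣ v → p ∣ S := fun p hp hpv =>
    hp.dvd_of_dvd_pow (n := 3) (h ▸ Dvd.dvd.mul_left ((hpv.mul_left u).mul_right w) N)
  have hdw : ∀ p : ℕ, p.Prime → p ∣ w → p ∣ S := fun p hp hpw =>
    hp.dvd_of_dvd_pow (n := 3) (h ▸ Dvd.dvd.mul_left (hpw.mul_left (u * v)) N)
  have huv : Nat.Coprime u v := by
    rw [Nat.coprime_iff_gcd_eq_one]
    by_contra hne
    obtain ⟨p, hp, hpg⟩ := Nat.exists_prime_and_dvd hne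
    have h1 := hpg.trans (Nat.gcd_dvd_left u v)
    have h2 := hpg.trans (Nat.gcd_dvd_right u v)
    have h3 := hdu p hp h1
    exact hg p hp ⟨h1, h2, (Nat.dvd_add_right (h1.add h2)).mp (hS ▸ h3)⟩
  -- 8 divides S
  have h64 : 64 ∣ S ^ 3 := by rw [h]; exact hN.mul_right _
  have h4 : S % 4 = 0 := by
    have : ∀ s : Fin 64, (s.1 ^ 3) % 64 = 0 → s.1 % 4 = 0 := by decide
    have h1 := this ⟨S % 64, Nat.mod_lt _ (by norm_num)⟩ (by
      show (S % 64) ^ 3 % 64 = 0
      rw [← Nat.pow_mod]; exact Nat.mod_eq_zero_of_dvd h64)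
    have h2 : S % 64 % 4 = 0 := h1
    omega
  have huvw : 2 ∣ u * v * w := by
    by_contra hodd
    have h1 : ¬ 2 ∣ u := fun h => hodd ((h.mul_right v).mul_right w)
    have h2 : ¬ 2 ∣ v := fun h => hodd ((h.mul_left u).mul_right w)
    have h3 : ¬ 2 ∣ w := fun h => hodd (h.mul_left (u * v))
    omega
  have h128 : 128 ∣ S ^ 3 := by
    rw [h]
    have := Nat.mul_dvd_mul hN huvw
    simpa using this
  have h8 : S % 8 = 0 := by
    have : ∀ s : Fin 128, (s.1 ^ 3) % 128 = 0 → s.1 % 8 = 0 := by decide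
    have h1 := this ⟨S % 128, Nat.mod_lt _ (by norm_num)⟩ (by
      show (S % 128) ^ 3 % 128 = 0
      rw [← Nat.pow_mod]; exact Nat.mod_eq_zero_of_dvd h128)
    have h2 : S % 128 % 8 = 0 := h1
    omega
  -- Bezout
  obtain ⟨X, Y, hXY⟩ : ∃ X Y : ℤ, (u : ℤ) * X - v * Y = 1 := by
    have h1 : IsCoprime (u : ℤ) (v : ℤ) := Nat.isCoprime_iff_coprime.mpr huv
    obtain ⟨a, b, hab⟩ := h1
    exact ⟨a, -b, by linarith⟩
  set T : ℤ := u * X ^ 2 + v * Y ^ 2 with hT
  have huZ : (0 : ℤ) < u := by exact_mod_cast hu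
  have hvZ : (0 : ℤ) < v := by exact_mod_cast hv
  have hSZ : (S : ℤ) = u + v + w := by rw [hS]; push_cast; ring
  have hS0Z : (0 : ℤ) < S := by exact_mod_cast hS0
  have hTpos : 0 < T := by
    by_cases hX : X = 0
    · have hY : Y ≠ 0 := by rintro rfl; rw [hX] at hXY; simp at hXY
      have : 0 < Y ^ 2 := by positivity
      have h2 : 0 ≤ X ^ 2 := sq_nonneg X
      rw [hT]; nlinarith [mul_pos hvZ this, mul_nonneg huZ.le h2]
    · have : 0 < X ^ 2 := by positivity
      have h2 : 0 ≤ Y ^ 2 := sq_nonneg Y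
      rw [hT]; nlinarith [mul_pos huZ this, mul_nonneg hvZ.le h2]
  obtain ⟨t, ht⟩ := Int.eq_ofNat_of_zero_le hTpos.le
  have ht0 : 0 < t := by rw [ht] at hTpos; exact_mod_cast hTpos
  have hSt : 0 < S * t := Nat.mul_pos hS0 ht0
  obtain ⟨q, hq⟩ : ∃ q : ℕ, q + 1 = S * t := ⟨S * t - 1, by omega⟩
  have hqZ : (q : ℤ) = S * T - 1 := by
    have : ((q + 1 : ℕ) : ℤ) = ((S * t : ℕ) : ℤ) := by rw [hq]
    push_cast at this
    rw [ht]; push_cast; linarith
  have hSdvd : S ∣ q + 1 := ⟨t, hq⟩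
  have hq8 : q % 8 = 7 := by
    have h1 : 8 ∣ q + 1 := (Nat.dvd_of_mod_eq_zero h8).trans hSdvd
    omega
  -- the Jacobi symbol
  have hM : 0 < S * (u * v * w) := by positivity
  have hJ := jacobi_neg (S * (u * v * w)) q hM hq8 (by
    intro p hp hpM
    refine dvd_trans ?_ hSdvd
    rcases hp.dvd_mul.mp hpM with h1 | h1
    · exact h1
    rcases hp.dvd_mul.mp h1 with h2 | h2
    · rcases hp.dvd_mul.mp h2 with h3 | h3
      · exact hdu p hp h3
      · exact hdv p hp h3
    · exact hdw p hp h2)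
  apply ZMod.nonsquare_of_jacobiSym_eq_neg_one hJ
  refine ⟨(((u * v * S : ℕ) : ℤ) * (X + Y) : ℤ), ?_⟩
  have key : (-((S * (u * v * w) : ℕ) : ℤ)) - (((u * v * S : ℕ) : ℤ) * (X + Y)) *
      (((u * v * S : ℕ) : ℤ) * (X + Y)) = (q : ℤ) * (-(u * v * (u + v) * S)) := by
    rw [hqZ, hT]
    push_cast
    rw [hSZ]
    linear_combination ((u:ℤ) * v * (u + v + w) ^ 2 * ((u : ℤ) * X - v * Y + 1)) * hXY
  have h0 : (((-((S * (u * v * w) : ℕ) : ℤ)) - (((u * v * S : ℕ) : ℤ) * (X + Y)) *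
      (((u * v * S : ℕ) : ℤ) * (X + Y)) : ℤ) : ZMod q) = 0 := by
    rw [key]; push_cast; simp
  have h1 := h0
  rw [Int.cast_sub, sub_eq_zero] at h1
  rw [h1]
  push_cast
  ring

/-- `(u + v + w) ^ 3 = N u v w` has no solution in positive integers if `64 ∣ N`. -/
theorem no_solution_nat : ∀ (u v w N : ℕ), 0 < u → 0 < v → 0 < w → 64 ∣ N →
    (u + v + w) ^ 3 ≠ N * (u * v * w) := by
  intro u
  induction u using Nat.strong_induction_on with
  | _ u ih =>
    intro v w N hu hv hw hN h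
    by_cases hg : ∀ p : ℕ, p.Prime → ¬ (p ∣ u ∧ p ∣ v ∧ p ∣ w)
    · exact coprime_case u v w N hu hv hw hg hN h
    · push Not at hg
      obtain ⟨p, hp, ⟨a, rfl⟩, ⟨b, rfl⟩, ⟨c, rfl⟩⟩ := hg
      have ha : 0 < a := Nat.pos_of_ne_zero (by rintro rfl; simp at hu)
      have hb : 0 < b := Nat.pos_of_ne_zero (by rintro rfl; simp at hv)
      have hc : 0 < c := Nat.pos_of_ne_zero (by rintro rfl; simp at hw)
      have hlt : a < p * a := by
        have := hp.two_le
        nlinarith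
      refine ih a hlt b c N ha hb hc hN ?_
      have h1 : p ^ 3 * (a + b + c) ^ 3 = p ^ 3 * (N * (a * b * c)) := by
        calc p ^ 3 * (a + b + c) ^ 3 = (p * a + p * b + p * c) ^ 3 := by ring
          _ = N * (p * a * (p * b) * (p * c)) := h
          _ = p ^ 3 * (N * (a * b * c)) := by ring
      exact Nat.eq_of_mul_eq_mul_left (pow_pos hp.pos 3) h1

/-- The same for positive rational numbers. -/
theorem no_solution_rat (x y z : ℚ) (N : ℕ) (hx : 0 < x) (hy : 0 < y) (hz : 0 < z) (hN : 64 ∣ N) :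
    (x + y + z) ^ 3 ≠ N * (x * y * z) := by
  intro h
  have key : ∀ t : ℚ, 0 < t → ∃ a b : ℕ, 0 < a ∧ 0 < b ∧ t = (a : ℚ) / b := by
    intro t ht
    refine ⟨t.num.toNat, t.den, ?_, t.den_pos, ?_⟩
    · have := Rat.num_pos.mpr ht
      omega
    · have h1 : ((t.num.toNat : ℤ) : ℚ) = (t.num : ℚ) := by
        rw [Int.toNat_of_nonneg (Rat.num_pos.mpr ht).le]
      have h2 : ((t.num.toNat : ℕ) : ℚ) = (t.num : ℚ) := by exact_mod_cast h1
      rw [h2, Rat.num_div_den]
  obtain ⟨a, b, ha, hb, rfl⟩ := key x hx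
  obtain ⟨c, d, hc, hd, rfl⟩ := key y hy
  obtain ⟨e, f, he, hf, rfl⟩ := key z hz
  apply no_solution_nat (a * d * f) (c * b * f) (e * b * d) N (by positivity) (by positivity)
    (by positivity) hN
  have hb' : (b : ℚ) ≠ 0 := by positivity
  have hd' : (d : ℚ) ≠ 0 := by positivity
  have hf' : (f : ℚ) ≠ 0 := by positivity
  have h2 : (((a * d * f + c * b * f + e * b * d) ^ 3 : ℕ) : ℚ) =
      ((N * (a * d * f * (c * b * f) * (e * b * d)) : ℕ) : ℚ) := by
    push_cast
    have e1 : ((a : ℚ) * d * f + c * b * f + e * b * d) = (a / b + c / d + e / f) * (b * d * f) := by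
      field_simp
    rw [e1, mul_pow, h]
    field_simp
  exact_mod_cast h2

/-- **Theorem.** Let `n` be a positive integer divisible by `4`. For no positive integer `A` there are
positive rational numbers `x`, `y`, `z` with `n = x + y + z` and `x y z = 1 / A`. So `A(n)` does not
exist for any positive integer `n` divisible by `4`; in particular `A(4)` does not exist. -/
theorem result : ∀ n : ℕ, 0 < n → 4 ∣ n →
    ¬ ∃ A : ℕ, 0 < A ∧ ∃ x y z : ℚ, 0 < x ∧ 0 < y ∧ 0 < z ∧
      (n : ℚ) = x + y + z ∧ x * y * z = 1 / (A : ℚ) := by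
  rintro n - h4 ⟨A, hA, x, y, z, hx, hy, hz, h1, h2⟩
  have hA' : (A : ℚ) ≠ 0 := by positivity
  apply no_solution_rat x y z (n ^ 3 * A) hx hy hz
  · have : 4 ^ 3 ∣ n ^ 3 := pow_dvd_pow_of_dvd h4 3
    exact (by norm_num : (64 : ℕ) = 4 ^ 3) ▸ (this.mul_right A)
  · rw [← h1, h2]
    push_cast
    field_simp

end Pool.Agent.Results.MP_1d631c_nt.NoMultipleOfFour
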